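import Pool.Agent.W909.RU.Defs

set_option autoImplicit false
open Finset

namespace Pool.Agent.W909.RU
variable {V : Type} [Fintype V]

theorem av_mono {f g : V → ℝ} (h : ∀ x, f x ≤ g x) : av f ≤ av g := by
  unfold av
  exact div_le_div_of_nonneg_right (sum_le_sum fun x _ => h x) (Nat.cast_nonneg _)

theorem av_add (f g : V → ℝ) : (av fun x => f x + g x) = av f + av g := by
  unfold av
  rw [sum_add_distrib, add_div]

theorem av_sub (f g : V → ℝ) : (av fun x => f x - g x) = av f - av g := by
  unfold av
  rw [sum_sub_distrib, sub_div]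

theorem av_mul (c : ℝ) (f : V → ℝ) : (av fun x => c * f x) = c * av f := by
  unfold av
  rw [← mul_sum, mul_div_assoc]

theorem av_mul_right (f : V → ℝ) (c : ℝ) : (av fun x => f x * c) = av f * c := by
  unfold av
  rw [← sum_mul]
  ring

theorem av_const (hn : 0 < Fintype.card V) (c : ℝ) : (av fun _ : V => c) = c := by
  have : (0 : ℝ) < Fintype.card V := by exact_mod_cast hn
  unfold av
  rw [sum_const, card_univ, nsmul_eq_mul]
  field_simp

theorem av_comm (f : V → V → ℝ) :
    (av fun x => av fun y => f x y) = av fun y => av fun x => f x y := by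
  unfold av
  rw [← sum_div, ← sum_div, sum_comm]

theorem av_nonneg {f : V → ℝ} (h : ∀ x, 0 ≤ f x) : 0 ≤ av f :=
  div_nonneg (sum_nonneg fun x _ => h x) (Nat.cast_nonneg _)

theorem av_sq (hn : 0 < Fintype.card V) (f : V → ℝ) : av f ^ 2 ≤ av fun x => f x ^ 2 := by
  have h : 0 ≤ av fun x => (f x - av f) ^ 2 := av_nonneg fun x => sq_nonneg _
  have e : (av fun x => (f x - av f) ^ 2) = (av fun x => f x ^ 2) - av f ^ 2 := by
    have h1 : (fun x => (f x - av f) ^ 2) = fun x => (f x ^ 2 - (2 * av f) * f x) + av f ^ 2 := by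
      funext x; ring
    rw [h1, av_add, av_sub, av_mul, av_const hn]
    ring
  rw [e] at h
  linarith

end Pool.Agent.W909.RU
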