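import Mathlib

/-! Averages for symmetric 0/1 functions of three variables. -/

set_option autoImplicit false
open Finset

namespace Pool.Agent.W909.RU

variable {V : Type} [Fintype V]

/-- average -/
noncomputable def av (f : V → ℝ) : ℝ := (∑ x, f x) / (Fintype.card V : ℝ)

/-- symmetric 0/1 functions -/
structure Sym3 (W : V → V → V → ℝ) : Prop where
  bit : ∀ x y z, W x y z = 0 ∨ W x y z = 1
  s1 : ∀ x y z, W y x z = W x y z
  s2 : ∀ x y z, W x z y = W x y z

noncomputable def dd (W : V → V → V → ℝ) (x y : V) : ℝ := av fun z => W x y z
noncomputable def bb (W : V → V → V → ℝ) (x : V) : ℝ := av fun y => dd W x y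
/-- density -/
noncomputable def B0 (W : V → V → V → ℝ) : ℝ := av fun x => bb W x
noncomputable def S0 (W : V → V → V → ℝ) : ℝ := av fun x => av fun y => dd W x y ^ 2
noncomputable def ff (W : V → V → V → ℝ) (x y : V) : ℝ := av fun z => av fun w => W x z w * W y z w
noncomputable def mm (W : V → V → V → ℝ) (x y : V) : ℝ :=
  av fun z => av fun w => W x z w * W y z w * (1 - W x y z)
/-- tau = S - T -/
noncomputable def tau (W : V → V → V → ℝ) : ℝ := av fun x => av fun y => mm W x y

open scoped Classical in
/-- indicator of the vertices of degree at most twice the average -/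
noncomputable def chi (W : V → V → V → ℝ) (x : V) : ℝ := if bb W x ≤ 2 * B0 W then 1 else 0

/-- codegree counted over light vertices -/
noncomputable def dl (W : V → V → V → ℝ) (z w : V) : ℝ := av fun x => chi W x * W x z w
/-- light part of the intersection of two neighbourhoods -/
noncomputable def II (W : V → V → V → ℝ) (z w u v : V) : ℝ := av fun x => chi W x * (W x z w * W x u v)
noncomputable def GG (W : V → V → V → ℝ) (z w u v : V) : ℝ := W u z w * W v z w
noncomputable def JJ (W : V → V → V → ℝ) : ℝ :=
  av fun z => av fun w => av fun u => av fun v => II W z w u v * GG W z w u v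
noncomputable def BA (W : V → V → V → ℝ) : ℝ := av fun x => chi W x * bb W x ^ 2
noncomputable def FF (W : V → V → V → ℝ) : ℝ := av fun x => av fun y => chi W x * chi W y * ff W x y ^ 2
noncomputable def Phi (W : V → V → V → ℝ) : ℝ := av fun x => av fun y => chi W x * chi W y * ff W x y

end Pool.Agent.W909.RU
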