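import Pool.Agent.W909.RU.Av

/-! Lower bound for the fourth moment. -/

set_option autoImplicit false
open Finset

namespace Pool.Agent.W909.RU

variable {V : Type} [Fintype V] {W : V → V → V → ℝ}

theorem av_swap4 (F : V → V → V → V → V → ℝ) :
    (av fun x => av fun z => av fun w => av fun u => av fun v => F x z w u v) =
      av fun z => av fun w => av fun u => av fun v => av fun x => F x z w u v := by
  rw [av_comm]
  congr 1; funext z
  rw [av_comm]
  congr 1; funext w
  rw [av_comm]
  congr 1; funext u
  rw [av_comm]

theorem av_prod4 (a : V → V → ℝ) (b : V → V → ℝ) :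
    (av fun z => av fun w => a z w) * (av fun u => av fun v => b u v) =
      av fun z => av fun w => av fun u => av fun v => a z w * b u v := by
  rw [← av_mul_right]
  congr 1; funext z
  rw [← av_mul_right]
  congr 1; funext w
  rw [← av_mul]
  congr 1; funext u
  rw [← av_mul]

theorem FF_eq (W : V → V → V → ℝ) :
    FF W = av fun z => av fun w => av fun u => av fun v => II W z w u v ^ 2 := by
  have h1 : ∀ x y, chi W x * chi W y * ff W x y ^ 2 =
      av fun z => av fun w => av fun u => av fun v =>
        (chi W x * (W x z w * W x u v)) * (chi W y * (W y z w * W y u v)) := by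
    intro x y
    have h2 : ff W x y ^ 2 = av fun z => av fun w => av fun u => av fun v =>
        (W x z w * W y z w) * (W x u v * W y u v) := by
      rw [sq]
      unfold ff
      exact av_prod4 _ _
    rw [h2, ← av_mul]
    congr 1; funext z
    rw [← av_mul]
    congr 1; funext w
    rw [← av_mul]
    congr 1; funext u
    rw [← av_mul]
    congr 1; funext v
    ring
  have h3 : FF W = av fun x => av fun y => av fun z => av fun w => av fun u => av fun v =>
        (chi W x * (W x z w * W x u v)) * (chi W y * (W y z w * W y u v)) := by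
    unfold FF
    congr 1; funext x
    congr 1; funext y
    exact h1 x y
  have h4 : (av fun x => av fun y => av fun z => av fun w => av fun u => av fun v =>
        (chi W x * (W x z w * W x u v)) * (chi W y * (W y z w * W y u v))) =
      av fun x => av fun z => av fun w => av fun u => av fun v => av fun y =>
        (chi W x * (W x z w * W x u v)) * (chi W y * (W y z w * W y u v)) := by
    congr 1; funext x
    exact av_swap4 fun y z w u v =>
      (chi W x * (W x z w * W x u v)) * (chi W y * (W y z w * W y u v))
  rw [h3, h4, av_swap4 fun x z w u v => av fun y =>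
      (chi W x * (W x z w * W x u v)) * (chi W y * (W y z w * W y u v))]
  congr 1; funext z
  congr 1; funext w
  congr 1; funext u
  congr 1; funext v
  rw [sq]
  have h5 : II W z w u v * II W z w u v =
      av fun x => (chi W x * (W x z w * W x u v)) * II W z w u v := by
    rw [av_mul_right]
    rfl
  rw [h5]
  congr 1; funext x
  rw [av_mul]
  rfl

theorem av_II (W : V → V → V → ℝ) :
    (av fun z => av fun w => av fun u => av fun v => II W z w u v) = BA W := by
  unfold II BA
  rw [← av_swap4 fun x z w u v => chi W x * (W x z w * W x u v)]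
  congr 1; funext x
  have h1 : bb W x ^ 2 = av fun z => av fun w => av fun u => av fun v =>
      W x z w * W x u v := by
    rw [sq]
    unfold bb dd
    exact av_prod4 _ _
  rw [h1, ← av_mul]
  congr 1; funext z
  rw [← av_mul]
  congr 1; funext w
  rw [← av_mul]
  congr 1; funext u
  rw [← av_mul]

theorem av_GG (h : Sym3 W) :
    (av fun z => av fun w => av fun u => av fun v => GG W z w u v) = S0 W := by
  unfold GG S0
  congr 1; funext z
  congr 1; funext w
  have h1 : ∀ u, W u z w = W z w u := by
    intro u
    rw [h.s1 z u w, h.s2 z w u]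
  have h2 : (av fun u => W u z w) = dd W z w := by
    unfold dd
    congr 1; funext u
    exact h1 u
  rw [sq]
  have h3 : dd W z w * dd W z w = av fun u => W u z w * dd W z w := by
    rw [av_mul_right, h2]
  rw [h3]
  congr 1; funext u
  rw [av_mul, h2]

theorem FF_ge (hn : 0 < Fintype.card V) (h : Sym3 W) :
    2 * B0 W * JJ W + 2 * B0 W ^ 2 * (BA W - JJ W) - B0 W ^ 2 * S0 W -
      B0 W ^ 4 * (1 - S0 W) ≤ FF W := by
  set b := B0 W with hb
  have hpt : ∀ z w u v, (2 * b - 2 * b ^ 2) * (II W z w u v * GG W z w u v) +
      (2 * b ^ 2 * II W z w u v + ((b ^ 4 - b ^ 2) * GG W z w u v + -b ^ 4)) ≤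
      II W z w u v ^ 2 := by
    intro z w u v
    have hG : GG W z w u v = 0 ∨ GG W z w u v = 1 := by
      unfold GG
      rcases h.bit u z w with h1 | h1 <;> rcases h.bit v z w with h2 | h2 <;>
        simp [h1, h2]
    rcases hG with hG | hG
    · rw [hG]
      nlinarith [sq_nonneg (II W z w u v - b ^ 2)]
    · rw [hG]
      nlinarith [sq_nonneg (II W z w u v - b)]
  have hle : (av fun z => av fun w => av fun u => av fun v =>
      ((2 * b - 2 * b ^ 2) * (II W z w u v * GG W z w u v) +
      (2 * b ^ 2 * II W z w u v + ((b ^ 4 - b ^ 2) * GG W z w u v + -b ^ 4)))) ≤ FF W := by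
    rw [FF_eq]
    exact av_mono fun z => av_mono fun w => av_mono fun u => av_mono fun v => hpt z w u v
  have e : (av fun z => av fun w => av fun u => av fun v =>
      ((2 * b - 2 * b ^ 2) * (II W z w u v * GG W z w u v) +
      (2 * b ^ 2 * II W z w u v + ((b ^ 4 - b ^ 2) * GG W z w u v + -b ^ 4)))) =
      (2 * b - 2 * b ^ 2) * JJ W + (2 * b ^ 2 * BA W + ((b ^ 4 - b ^ 2) * S0 W + -b ^ 4)) := by
    simp only [av_add, av_mul, av_const hn]
    rw [av_II, av_GG h]
    rfl
  rw [e] at hle
  linarith

end Pool.Agent.W909.RU
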