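import Pool.Agent.W909.RU.Av

set_option autoImplicit false
open Finset

namespace Pool.Agent.W909.RU

variable {V : Type} [Fintype V] {W : V → V → V → ℝ}

theorem hv_fub (g : V → V → V → ℝ) :
    (av fun x => av fun y => av fun z => av fun w => g x z w * g y z w) =
      av fun z => av fun w => (av fun x => g x z w) ^ 2 := by
  have h1 : ∀ x, (av fun y => av fun z => av fun w => g x z w * g y z w) =
      av fun z => av fun w => g x z w * av fun y => g y z w := by
    intro x
    rw [av_comm]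
    congr 1; funext z
    rw [av_comm]
    congr 1; funext w
    rw [av_mul]
  have h2 : (av fun x => av fun y => av fun z => av fun w => g x z w * g y z w) =
      av fun x => av fun z => av fun w => g x z w * av fun y => g y z w := by
    congr 1; funext x; exact h1 x
  rw [h2, av_comm]
  congr 1; funext z
  rw [av_comm]
  congr 1; funext w
  rw [av_mul_right]
  ring

theorem hv_rot (h : Sym3 W) (x z w : V) : W x z w = W z w x := by
  rw [← h.s1 x z w, ← h.s2 z x w]

theorem hv_ff (h : Sym3 W) : (av fun x => av fun y => ff W x y) = S0 W := by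
  have h1 := hv_fub W
  unfold S0 ff
  rw [h1]
  congr 1; funext z
  congr 1; funext w
  congr 1
  unfold dd
  congr 1; funext x
  exact hv_rot h x z w

theorem hv_sigma (hn : 0 < Fintype.card V) :
    (av fun x => (bb W x - B0 W) ^ 2) ≤ S0 W - B0 W ^ 2 := by
  have e : (av fun x => (bb W x - B0 W) ^ 2) = (av fun x => bb W x ^ 2) - B0 W ^ 2 := by
    have h1 : (fun x => (bb W x - B0 W) ^ 2) =
        fun x => (bb W x ^ 2 - (2 * B0 W) * bb W x) + B0 W ^ 2 := by
      funext x; ring
    rw [h1, av_add, av_sub, av_mul, av_const hn]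
    have : (av fun x => bb W x) = B0 W := rfl
    rw [this]
    ring
  rw [e]
  have h2 : (av fun x => bb W x ^ 2) ≤ S0 W := av_mono fun x => av_sq hn _
  linarith

theorem hv_chi_zo (W : V → V → V → ℝ) (x : V) : chi W x = 0 ∨ chi W x = 1 := by
  unfold chi
  split_ifs
  · exact Or.inr rfl
  · exact Or.inl rfl

theorem hv_bb_nonneg (h : Sym3 W) (x : V) : 0 ≤ bb W x :=
  av_nonneg fun y => av_nonneg fun z => by
    rcases h.bit x y z with h | h <;> rw [h] <;> norm_num

theorem heavy (hn : 0 < Fintype.card V) (h : Sym3 W) (hb : 0 < B0 W) :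
    (av fun x => (1 - chi W x) * bb W x) ≤ 2 * (S0 W - B0 W ^ 2) / B0 W := by
  have hp : ∀ x, (1 - chi W x) * bb W x ≤ 2 / B0 W * (bb W x - B0 W) ^ 2 := by
    intro x
    unfold chi
    split_ifs with hc
    · have : 0 ≤ 2 / B0 W * (bb W x - B0 W) ^ 2 := by positivity
      simpa using this
    · push Not at hc
      rw [div_mul_eq_mul_div, le_div_iff₀ hb]
      nlinarith [mul_pos hb hb]
  refine (av_mono hp).trans ?_
  rw [av_mul]
  have h2 := hv_sigma (W := W) hn
  have h3 : 0 ≤ 2 / B0 W := by positivity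
  calc 2 / B0 W * (av fun x => (bb W x - B0 W) ^ 2) ≤ 2 / B0 W * (S0 W - B0 W ^ 2) :=
        mul_le_mul_of_nonneg_left h2 h3
    _ = _ := by ring

theorem hv_low (hn : 0 < Fintype.card V) (h : Sym3 W) (hb : 0 < B0 W) :
    B0 W - 2 * (S0 W - B0 W ^ 2) / B0 W ≤ av fun x => chi W x * bb W x := by
  have h1 := heavy hn h hb
  have h2 : (av fun x => (1 - chi W x) * bb W x) = B0 W - av fun x => chi W x * bb W x := by
    have : (fun x => (1 - chi W x) * bb W x) = fun x => bb W x - chi W x * bb W x := by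
      funext x; ring
    rw [this, av_sub]
    rfl
  rw [h2] at h1
  linarith

theorem hv_sq (hn : 0 < Fintype.card V) (h : Sym3 W) (hb : 0 < B0 W) (Q : ℝ)
    (hQ : (av fun x => chi W x * bb W x) ^ 2 ≤ Q) :
    B0 W ^ 2 - 4 * (S0 W - B0 W ^ 2) ≤ Q := by
  have hs : 0 ≤ S0 W - B0 W ^ 2 := (av_nonneg fun x => sq_nonneg _).trans (hv_sigma hn)
  have h1 := hv_low hn h hb
  have hQ0 : 0 ≤ Q := (sq_nonneg _).trans hQ
  by_cases hc : 0 ≤ B0 W - 2 * (S0 W - B0 W ^ 2) / B0 W
  · have h2 : (B0 W - 2 * (S0 W - B0 W ^ 2) / B0 W) ^ 2 ≤ Q :=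
      (pow_le_pow_left₀ hc h1 2).trans hQ
    have h3 : (B0 W - 2 * (S0 W - B0 W ^ 2) / B0 W) ^ 2 =
        B0 W ^ 2 - 4 * (S0 W - B0 W ^ 2) + (2 * (S0 W - B0 W ^ 2) / B0 W) ^ 2 := by
      field_simp
      ring
    have h4 := sq_nonneg (2 * (S0 W - B0 W ^ 2) / B0 W)
    linarith
  · push Not at hc
    have h5 : B0 W < 2 * (S0 W - B0 W ^ 2) / B0 W := by linarith
    rw [lt_div_iff₀ hb] at h5
    nlinarith

theorem BA_ge (hn : 0 < Fintype.card V) (h : Sym3 W) (hb : 0 < B0 W) :
    B0 W ^ 2 - 4 * (S0 W - B0 W ^ 2) ≤ BA W := by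
  apply hv_sq hn h hb
  refine (av_sq hn _).trans (le_of_eq ?_)
  unfold BA
  congr 1; funext x
  rcases hv_chi_zo W x with h | h <;> rw [h] <;> ring

theorem hv_Phi (W : V → V → V → ℝ) : Phi W = av fun z => av fun w => dl W z w ^ 2 := by
  have h1 := hv_fub (fun x z w => chi W x * W x z w)
  unfold Phi dl
  rw [← h1]
  congr 1; funext x
  congr 1; funext y
  unfold ff
  rw [← av_mul]
  congr 1; funext z
  rw [← av_mul]
  congr 1; funext w
  ring

theorem hv_dl (W : V → V → V → ℝ) :
    (av fun z => av fun w => dl W z w) = av fun x => chi W x * bb W x := by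
  unfold dl
  have h1 : ∀ z, (av fun w => av fun x => chi W x * W x z w) =
      av fun x => chi W x * dd W x z := by
    intro z
    rw [av_comm]
    congr 1; funext x
    rw [av_mul]
    rfl
  have h2 : (av fun z => av fun w => av fun x => chi W x * W x z w) =
      av fun z => av fun x => chi W x * dd W x z := by
    congr 1; funext z; exact h1 z
  rw [h2, av_comm]
  congr 1; funext x
  rw [av_mul]
  rfl

theorem Phi_ge (hn : 0 < Fintype.card V) (h : Sym3 W) (hb : 0 < B0 W) :
    B0 W ^ 2 - 4 * (S0 W - B0 W ^ 2) ≤ Phi W := by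
  apply hv_sq hn h hb
  rw [hv_Phi, ← hv_dl]
  exact (av_sq hn _).trans (av_mono fun z => av_sq hn _)

theorem Phi_le (hn : 0 < Fintype.card V) (h : Sym3 W) : Phi W ≤ S0 W := by
  rw [← hv_ff h]
  refine av_mono fun x => av_mono fun y => ?_
  have hf : 0 ≤ ff W x y := av_nonneg fun z => av_nonneg fun w => by
    rcases h.bit x z w with h1 | h1 <;> rcases h.bit y z w with h2 | h2 <;> rw [h1, h2] <;> norm_num
  rcases hv_chi_zo W x with h1 | h1 <;> rcases hv_chi_zo W y with h2 | h2 <;> rw [h1, h2] <;> nlinarith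

end Pool.Agent.W909.RU
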