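import Pool.Agent.W909.RU.Av

set_option autoImplicit false
open Finset

namespace Pool.Agent.W909.RU

theorem hyc2 (m : ℕ) : ((m.choose 2 : ℕ) : ℝ) = (m : ℝ) * (m - 1) / 2 := Nat.cast_choose_two ℝ m

theorem hyc3 (m : ℕ) : ((m.choose 3 : ℕ) : ℝ) = (m : ℝ) * (m - 1) * (m - 2) / 6 := by
  induction m with
  | zero => simp
  | succ m ih =>
    rw [Nat.choose_succ_succ' m 2]
    push_cast
    rw [hyc2, ih]
    ring

theorem hyc4 (m : ℕ) :
    ((m.choose 4 : ℕ) : ℝ) = (m : ℝ) * (m - 1) * (m - 2) * (m - 3) / 24 := by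
  induction m with
  | zero => simp
  | succ m ih =>
    rw [Nat.choose_succ_succ' m 3]
    push_cast
    rw [hyc3, ih]
    ring

theorem hyper0 (N m : ℕ) (hm : m ≤ N) :
    ∑ k ∈ range 5, ((m.choose k * (N - m).choose (4 - k) : ℕ) : ℝ) = (N.choose 4 : ℝ) := by
  obtain ⟨l, rfl⟩ := Nat.exists_eq_add_of_le hm
  rw [Nat.add_sub_cancel_left]
  simp only [Finset.sum_range_succ, Finset.sum_range_zero, Nat.choose_zero_right,
    Nat.sub_zero, Nat.sub_self, Nat.choose_one_right, zero_add, Nat.cast_mul, Nat.cast_one,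
    show (4 - 1 : ℕ) = 3 from rfl, show (4 - 2 : ℕ) = 2 from rfl, show (4 - 3 : ℕ) = 1 from rfl,
    hyc2, hyc3, hyc4, Nat.cast_add]
  ring

theorem hyper (N m : ℕ) (hN : 5 ≤ N) (hm : m ≤ N) (p q t : ℝ) :
    ∑ k ∈ range 5, ((m.choose k * (N - m).choose (4 - k) : ℕ) : ℝ) *
        (p * k - q * (k * (k - 1)) - t * (k * (k - 1) * (4 - k))) =
      (N.choose 4 : ℝ) * (4 * p * m / N - 12 * q * m * (m - 1) / (N * (N - 1)) -
        24 * t * m * (m - 1) * (N - m) / (N * (N - 1) * (N - 2))) := by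
  have h5 : (5 : ℝ) ≤ N := by exact_mod_cast hN
  have n0 : (N : ℝ) ≠ 0 := by linarith
  have n1 : (N : ℝ) - 1 ≠ 0 := by linarith
  have n2 : (N : ℝ) - 2 ≠ 0 := by linarith
  obtain ⟨l, rfl⟩ := Nat.exists_eq_add_of_le hm
  rw [Nat.add_sub_cancel_left]
  have e : (((m + l).choose 4 : ℕ) : ℝ) * (4 * p * m / ((m + l : ℕ) : ℝ) -
      12 * q * m * (m - 1) / (((m + l : ℕ) : ℝ) * (((m + l : ℕ) : ℝ) - 1)) -
        24 * t * m * (m - 1) * (((m + l : ℕ) : ℝ) - m) /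
          (((m + l : ℕ) : ℝ) * (((m + l : ℕ) : ℝ) - 1) * (((m + l : ℕ) : ℝ) - 2)))
      = p * m * ((((m + l : ℕ) : ℝ) - 1) * (((m + l : ℕ) : ℝ) - 2) * (((m + l : ℕ) : ℝ) - 3)) / 6
        - q * m * (m - 1) * ((((m + l : ℕ) : ℝ) - 2) * (((m + l : ℕ) : ℝ) - 3)) / 2
        - t * m * (m - 1) * l * (((m + l : ℕ) : ℝ) - 3) := by
    rw [hyc4]
    field_simp
    push_cast
    ring
  rw [e]
  simp only [Finset.sum_range_succ, Finset.sum_range_zero, Nat.choose_zero_right,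
    Nat.sub_zero, Nat.sub_self, Nat.choose_one_right, zero_add, Nat.cast_mul, Nat.cast_one,
    show (4 - 1 : ℕ) = 3 from rfl, show (4 - 2 : ℕ) = 2 from rfl, show (4 - 3 : ℕ) = 1 from rfl,
    hyc2, hyc3, hyc4, Nat.cast_add, Nat.cast_zero, Nat.cast_ofNat]
  ring

end Pool.Agent.W909.RU
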