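import Pool.Agent.W909.RU.Heavy

set_option autoImplicit false
open Finset

namespace Pool.Agent.W909.RU

variable {V : Type} [Fintype V] {W : V → V → V → ℝ}

/-- the integrand of tau -/
noncomputable def jlK (W : V → V → V → ℝ) (x y z w : V) : ℝ := W x z w * W y z w * (1 - W x y z)

theorem jl_tau (W : V → V → V → ℝ) :
    tau W = av fun x => av fun y => av fun z => av fun w => jlK W x y z w := rfl

theorem jl_av3 (G : V → V → V → ℝ) :
    (av fun z => av fun w => av fun y => G y z w) = av fun y => av fun z => av fun w => G y z w := by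
  have : (fun z => av fun w => av fun y => G y z w) = fun z => av fun y => av fun w => G y z w :=
    funext fun z => av_comm _
  rw [this, av_comm]

theorem jl_av4 (F : V → V → V → V → ℝ) :
    (av fun z => av fun w => av fun x => av fun y => F x y z w) =
      av fun x => av fun y => av fun z => av fun w => F x y z w := by
  rw [jl_av3 (fun x z w => av fun y => F x y z w)]
  congr 1; funext x
  exact jl_av3 (fun y z w => F x y z w)

theorem jl_bits (c a b d e f g : ℝ) (hc : c = 0 ∨ c = 1) (ha : a = 0 ∨ a = 1) (hb : b = 0 ∨ b = 1)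
    (hd : d = 0 ∨ d = 1) (he : e = 0 ∨ e = 1) (hf : f = 0 ∨ f = 1) (hg : g = 0 ∨ g = 1) :
    c * a * (b * d) - a * b * (1 - f) - b * d * (1 - g) - f * g * (1 - e) ≤
      c * (a * e) * (b * d) := by
  rcases hc with rfl | rfl <;> rcases ha with rfl | rfl <;> rcases hb with rfl | rfl <;>
    rcases hd with rfl | rfl <;> rcases he with rfl | rfl <;> rcases hf with rfl | rfl <;>
    rcases hg with rfl | rfl <;> norm_num

theorem jl_point (h : Sym3 W) (x z w u v : V) :
    chi W x * W x z w * (W u z w * W v z w) - jlK W x u z w - jlK W u v z w - jlK W x v u z ≤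
      chi W x * (W x z w * W x u v) * (W u z w * W v z w) := by
  unfold jlK
  rw [h.s1 u v z, h.s2 x u v]
  exact jl_bits _ _ _ _ _ _ _ (hv_chi_zo W x) (h.bit _ _ _) (h.bit _ _ _) (h.bit _ _ _)
    (h.bit _ _ _) (h.bit _ _ _) (h.bit _ _ _)

theorem jl_dd (h : Sym3 W) (z w : V) : (av fun u => W u z w) = dd W z w := by
  unfold dd
  congr 1; funext u
  exact hv_rot h u z w

theorem jl_split (hn : 0 < Fintype.card V) (h : Sym3 W) :
    (av fun z => av fun w => dl W z w * dd W z w ^ 2) - 3 * tau W ≤ JJ W := by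
  have h1 : ∀ z w u v, dl W z w * (W u z w * W v z w) - (av fun x => jlK W x u z w)
      - jlK W u v z w - (av fun x => jlK W x v u z) ≤ II W z w u v * GG W z w u v := by
    intro z w u v
    have h2 := av_mono (fun x => jl_point h x z w u v)
    rw [av_sub, av_sub, av_sub, av_mul_right, av_mul_right, av_const hn] at h2
    exact h2
  have h3 : (av fun z => av fun w => av fun u => av fun v =>
      (dl W z w * (W u z w * W v z w) - (av fun x => jlK W x u z w)
      - jlK W u v z w - (av fun x => jlK W x v u z))) ≤ JJ W :=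
    av_mono fun z => av_mono fun w => av_mono fun u => av_mono fun v => h1 z w u v
  have h4 : ∀ z w u, (av fun v =>
      (dl W z w * (W u z w * W v z w) - (av fun x => jlK W x u z w)
      - jlK W u v z w - (av fun x => jlK W x v u z))) =
      dl W z w * dd W z w * W u z w - (av fun x => jlK W x u z w)
      - (av fun v => jlK W u v z w) - (av fun v => av fun x => jlK W x v u z) := by
    intro z w u
    rw [av_sub, av_sub, av_sub, av_mul, av_mul, av_const hn, jl_dd h]
    ring
  have h5 : ∀ z w, (av fun u => (dl W z w * dd W z w * W u z w - (av fun x => jlK W x u z w)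
      - (av fun v => jlK W u v z w) - (av fun v => av fun x => jlK W x v u z))) =
      dl W z w * dd W z w ^ 2 - (av fun u => av fun x => jlK W x u z w)
      - (av fun u => av fun v => jlK W u v z w)
      - (av fun u => av fun v => av fun x => jlK W x v u z) := by
    intro z w
    rw [av_sub, av_sub, av_sub, av_mul, jl_dd h]
    ring
  have h6 : (av fun z => av fun w => av fun u => av fun v =>
      (dl W z w * (W u z w * W v z w) - (av fun x => jlK W x u z w)
      - jlK W u v z w - (av fun x => jlK W x v u z))) =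
      (av fun z => av fun w => dl W z w * dd W z w ^ 2)
      - (av fun z => av fun w => av fun u => av fun x => jlK W x u z w)
      - (av fun z => av fun w => av fun u => av fun v => jlK W u v z w)
      - (av fun z => av fun u => av fun v => av fun x => jlK W x v u z) := by
    rw [← av_sub, ← av_sub, ← av_sub]
    congr 1; funext z
    have : (av fun u => av fun v => av fun x => jlK W x v u z) =
        av fun _ : V => (av fun u => av fun v => av fun x => jlK W x v u z) := (av_const hn _).symm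
    rw [this, ← av_sub, ← av_sub, ← av_sub]
    congr 1; funext w
    rw [← h5 z w]
    congr 1; funext u
    exact h4 z w u
  have hA : (av fun z => av fun w => av fun u => av fun x => jlK W x u z w) = tau W := by
    rw [jl_av4 (fun u x z w => jlK W x u z w), av_comm, jl_tau]
  have hB : (av fun z => av fun w => av fun u => av fun v => jlK W u v z w) = tau W := by
    rw [jl_av4 (fun u v z w => jlK W u v z w), jl_tau]
  have hC : (av fun z => av fun u => av fun v => av fun x => jlK W x v u z) = tau W := by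
    rw [av_comm, jl_av4 (fun v x u z => jlK W x v u z), av_comm, jl_tau]
  rw [h6, hA, hB, hC] at h3
  linarith

omit [Fintype V] in
theorem jl_w01 (h : Sym3 W) (x y z : V) : 0 ≤ W x y z ∧ W x y z ≤ 1 := by
  rcases h.bit x y z with h | h <;> rw [h] <;> norm_num

theorem jl_main (hn : 0 < Fintype.card V) (h : Sym3 W) (hb : 0 < B0 W) :
    B0 W ^ 3 - (2 + 4 * B0 W) * (S0 W - B0 W ^ 2) ≤
      av fun z => av fun w => dl W z w * dd W z w ^ 2 := by
  have hdd0 : ∀ z w, 0 ≤ dd W z w := fun z w => av_nonneg fun u => (jl_w01 h z w u).1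
  have hdh : ∀ z w, dd W z w - dl W z w = av fun x => (1 - chi W x) * W x z w := by
    intro z w
    rw [← jl_dd h]
    unfold dl
    rw [← av_sub]
    congr 1; funext x
    ring
  have hdh0 : ∀ z w, 0 ≤ dd W z w - dl W z w := by
    intro z w
    rw [hdh]
    refine av_nonneg fun x => ?_
    have := (jl_w01 h x z w).1
    rcases hv_chi_zo W x with h1 | h1 <;> rw [h1] <;> norm_num
    exact this
  have hdh1 : ∀ z w, dd W z w - dl W z w ≤ 1 := by
    intro z w
    rw [hdh]
    have h1 : (av fun x => (1 - chi W x) * W x z w) ≤ av fun _ : V => (1:ℝ) := by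
      refine av_mono fun x => ?_
      have := (jl_w01 h x z w).2
      rcases hv_chi_zo W x with h1 | h1 <;> rw [h1] <;> norm_num
      exact this
    rwa [av_const hn] at h1
  have hp : ∀ z w, (3 * B0 W ^ 2 * dd W z w - 2 * B0 W ^ 3) -
      (2 * B0 W ^ 2 * (dd W z w - dl W z w) + 2 * (dd W z w ^ 2 - 2 * B0 W * dd W z w + B0 W ^ 2)) ≤
      dl W z w * dd W z w ^ 2 := by
    intro z w
    have a0 := hdd0 z w
    have a1 := hdh0 z w
    have a2 := hdh1 z w
    set d := dd W z w
    set e := d - dl W z w with he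
    have he' : dl W z w = d - e := by rw [he]; ring
    rw [he']
    have b1 : 3 * B0 W ^ 2 * d - 2 * B0 W ^ 3 ≤ d ^ 3 := by
      nlinarith [mul_nonneg (add_nonneg a0 (add_nonneg hb.le hb.le)) (sq_nonneg (d - B0 W))]
    have b2 : d ^ 2 ≤ 2 * B0 W ^ 2 + 2 * (d - B0 W) ^ 2 := by nlinarith [sq_nonneg (d - 2 * B0 W)]
    have b3 : e * d ^ 2 ≤ e * (2 * B0 W ^ 2 + 2 * (d - B0 W) ^ 2) :=
      mul_le_mul_of_nonneg_left b2 a1
    have b4 : e * (2 * (d - B0 W) ^ 2) ≤ 1 * (2 * (d - B0 W) ^ 2) :=
      mul_le_mul_of_nonneg_right a2 (by positivity)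
    nlinarith
  have hmono := av_mono (fun z => av_mono (fun w => hp z w))
  have hval : (av fun z => av fun w => (3 * B0 W ^ 2 * dd W z w - 2 * B0 W ^ 3) -
      (2 * B0 W ^ 2 * (dd W z w - dl W z w) +
        2 * (dd W z w ^ 2 - 2 * B0 W * dd W z w + B0 W ^ 2))) =
      (B0 W ^ 2 + 4 * B0 W) * B0 W + 2 * B0 W ^ 2 * (av fun x => chi W x * bb W x) - 2 * S0 W
        - (2 * B0 W ^ 3 + 2 * B0 W ^ 2) := by
    have e1 : ∀ z, (av fun w => (3 * B0 W ^ 2 * dd W z w - 2 * B0 W ^ 3) -
      (2 * B0 W ^ 2 * (dd W z w - dl W z w) +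
        2 * (dd W z w ^ 2 - 2 * B0 W * dd W z w + B0 W ^ 2))) =
      (B0 W ^ 2 + 4 * B0 W) * bb W z + 2 * B0 W ^ 2 * (av fun w => dl W z w)
        - 2 * (av fun w => dd W z w ^ 2) - (2 * B0 W ^ 3 + 2 * B0 W ^ 2) := by
      intro z
      have e2 : (fun w => (3 * B0 W ^ 2 * dd W z w - 2 * B0 W ^ 3) -
        (2 * B0 W ^ 2 * (dd W z w - dl W z w) +
          2 * (dd W z w ^ 2 - 2 * B0 W * dd W z w + B0 W ^ 2))) =
        fun w => (((B0 W ^ 2 + 4 * B0 W) * dd W z w + 2 * B0 W ^ 2 * dl W z w)
          - 2 * dd W z w ^ 2) - (2 * B0 W ^ 3 + 2 * B0 W ^ 2) := by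
        funext w; ring
      rw [e2, av_sub, av_sub, av_add, av_mul, av_mul, av_mul, av_const hn]
      rfl
    have e3 : (fun z => (av fun w => (3 * B0 W ^ 2 * dd W z w - 2 * B0 W ^ 3) -
      (2 * B0 W ^ 2 * (dd W z w - dl W z w) +
        2 * (dd W z w ^ 2 - 2 * B0 W * dd W z w + B0 W ^ 2)))) = fun z =>
      (B0 W ^ 2 + 4 * B0 W) * bb W z + 2 * B0 W ^ 2 * (av fun w => dl W z w)
        - 2 * (av fun w => dd W z w ^ 2) - (2 * B0 W ^ 3 + 2 * B0 W ^ 2) := funext e1
    rw [e3, av_sub, av_sub, av_add, av_mul, av_mul, av_mul, av_const hn, hv_dl]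
    rfl
  rw [hval] at hmono
  refine le_trans ?_ hmono
  have hl := hv_low hn h hb
  have hl2 := mul_le_mul_of_nonneg_left hl (by positivity : 0 ≤ 2 * B0 W ^ 2)
  have e4 : 2 * B0 W ^ 2 * (B0 W - 2 * (S0 W - B0 W ^ 2) / B0 W) =
      2 * B0 W ^ 3 - 4 * B0 W * (S0 W - B0 W ^ 2) := by
    field_simp
    ring
  rw [e4] at hl2
  nlinarith

theorem JJ_ge (hn : 0 < Fintype.card V) (h : Sym3 W) (hb : 0 < B0 W) :
    B0 W ^ 3 - (2 + 4 * B0 W) * (S0 W - B0 W ^ 2) - 3 * tau W ≤ JJ W := by
  have h1 := jl_split hn h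
  have h2 := jl_main hn h hb
  linarith

end Pool.Agent.W909.RU

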