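import Pool.Agent.W909.RU.Av

/-! Averages over quadruples. -/

set_option autoImplicit false
open Finset

namespace Pool.Agent.W909.RU

variable {V : Type} [Fintype V] {W : V → V → V → ℝ}

/-- average over quadruples -/
noncomputable def Q4 (f : V → V → V → V → ℝ) : ℝ :=
  av fun a => av fun b => av fun c => av fun d => f a b c d

theorem Q4_sw1 (f : V → V → V → V → ℝ) : Q4 (fun a b c d => f b a c d) = Q4 f := by
  unfold Q4
  exact av_comm (fun a b => av fun c => av fun d => f b a c d)

theorem Q4_sw2 (f : V → V → V → V → ℝ) : Q4 (fun a b c d => f a c b d) = Q4 f := by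
  unfold Q4
  congr 1
  funext a
  exact av_comm (fun b c => av fun d => f a c b d)

theorem Q4_sw3 (f : V → V → V → V → ℝ) : Q4 (fun a b c d => f a b d c) = Q4 f := by
  unfold Q4
  congr 1
  funext a
  congr 1
  funext b
  exact av_comm (fun c d => f a b d c)

theorem Q4_add (f g : V → V → V → V → ℝ) :
    Q4 (fun a b c d => f a b c d + g a b c d) = Q4 f + Q4 g := by
  unfold Q4
  simp only [av_add]

theorem Q4_mul (c : ℝ) (f : V → V → V → V → ℝ) :
    Q4 (fun x y z w => c * f x y z w) = c * Q4 f := by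
  unfold Q4
  simp only [av_mul]

theorem Q4_p_abcd (f : V → V → V → V → ℝ) : Q4 (fun a b c d => f a b c d) = Q4 f := by
  rfl

theorem Q4_p_abdc (f : V → V → V → V → ℝ) : Q4 (fun a b c d => f a b d c) = Q4 f := by
  exact (Q4_sw3 (fun a b c d => f a b d c)).symm

theorem Q4_p_acdb (f : V → V → V → V → ℝ) : Q4 (fun a b c d => f a c d b) = Q4 f := by
  exact ((Q4_sw2 (fun a b c d => f a c d b)).symm).trans
    ((Q4_sw3 (fun a b c d => f a b d c)).symm)

theorem Q4_p_adcb (f : V → V → V → V → ℝ) : Q4 (fun a b c d => f a d c b) = Q4 f := by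
  exact ((Q4_sw2 (fun a b c d => f a d c b)).symm).trans
    (((Q4_sw3 (fun a b c d => f a d b c)).symm).trans
    ((Q4_sw2 (fun a b c d => f a c b d)).symm))

theorem Q4_p_bacd (f : V → V → V → V → ℝ) : Q4 (fun a b c d => f b a c d) = Q4 f := by
  exact (Q4_sw1 (fun a b c d => f b a c d)).symm

theorem Q4_p_badc (f : V → V → V → V → ℝ) : Q4 (fun a b c d => f b a d c) = Q4 f := by
  exact ((Q4_sw1 (fun a b c d => f b a d c)).symm).trans
    ((Q4_sw3 (fun a b c d => f a b d c)).symm)

theorem Q4_p_bcda (f : V → V → V → V → ℝ) : Q4 (fun a b c d => f b c d a) = Q4 f := by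
  exact ((Q4_sw1 (fun a b c d => f b c d a)).symm).trans
    (((Q4_sw2 (fun a b c d => f a c d b)).symm).trans
    ((Q4_sw3 (fun a b c d => f a b d c)).symm))

theorem Q4_p_bdca (f : V → V → V → V → ℝ) : Q4 (fun a b c d => f b d c a) = Q4 f := by
  exact ((Q4_sw1 (fun a b c d => f b d c a)).symm).trans
    (((Q4_sw2 (fun a b c d => f a d c b)).symm).trans
    (((Q4_sw3 (fun a b c d => f a d b c)).symm).trans
    ((Q4_sw2 (fun a b c d => f a c b d)).symm)))

theorem Q4_p_cabd (f : V → V → V → V → ℝ) : Q4 (fun a b c d => f c a b d) = Q4 f := by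
  exact ((Q4_sw2 (fun a b c d => f c a b d)).symm).trans
    ((Q4_sw1 (fun a b c d => f b a c d)).symm)

theorem Q4_p_cadb (f : V → V → V → V → ℝ) : Q4 (fun a b c d => f c a d b) = Q4 f := by
  exact ((Q4_sw2 (fun a b c d => f c a d b)).symm).trans
    (((Q4_sw1 (fun a b c d => f b a d c)).symm).trans
    ((Q4_sw3 (fun a b c d => f a b d c)).symm))

theorem Q4_p_cbad (f : V → V → V → V → ℝ) : Q4 (fun a b c d => f c b a d) = Q4 f := by
  exact ((Q4_sw1 (fun a b c d => f c b a d)).symm).trans
    (((Q4_sw2 (fun a b c d => f c a b d)).symm).trans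
    ((Q4_sw1 (fun a b c d => f b a c d)).symm))

theorem Q4_p_cbda (f : V → V → V → V → ℝ) : Q4 (fun a b c d => f c b d a) = Q4 f := by
  exact ((Q4_sw1 (fun a b c d => f c b d a)).symm).trans
    (((Q4_sw2 (fun a b c d => f c a d b)).symm).trans
    (((Q4_sw1 (fun a b c d => f b a d c)).symm).trans
    ((Q4_sw3 (fun a b c d => f a b d c)).symm)))

theorem Q4_p_cdba (f : V → V → V → V → ℝ) : Q4 (fun a b c d => f c d b a) = Q4 f := by
  exact ((Q4_sw1 (fun a b c d => f c d b a)).symm).trans
    (((Q4_sw2 (fun a b c d => f c d a b)).symm).trans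
    (((Q4_sw1 (fun a b c d => f b d a c)).symm).trans
    (((Q4_sw3 (fun a b c d => f a d b c)).symm).trans
    ((Q4_sw2 (fun a b c d => f a c b d)).symm))))

theorem Q4_p_dabc (f : V → V → V → V → ℝ) : Q4 (fun a b c d => f d a b c) = Q4 f := by
  exact ((Q4_sw3 (fun a b c d => f d a b c)).symm).trans
    (((Q4_sw2 (fun a b c d => f c a b d)).symm).trans
    ((Q4_sw1 (fun a b c d => f b a c d)).symm))

theorem Q4_p_dacb (f : V → V → V → V → ℝ) : Q4 (fun a b c d => f d a c b) = Q4 f := by
  exact ((Q4_sw2 (fun a b c d => f d a c b)).symm).trans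
    (((Q4_sw3 (fun a b c d => f d a b c)).symm).trans
    (((Q4_sw2 (fun a b c d => f c a b d)).symm).trans
    ((Q4_sw1 (fun a b c d => f b a c d)).symm)))

theorem Q4_p_dbac (f : V → V → V → V → ℝ) : Q4 (fun a b c d => f d b a c) = Q4 f := by
  exact ((Q4_sw1 (fun a b c d => f d b a c)).symm).trans
    (((Q4_sw3 (fun a b c d => f d a b c)).symm).trans
    (((Q4_sw2 (fun a b c d => f c a b d)).symm).trans
    ((Q4_sw1 (fun a b c d => f b a c d)).symm)))

theorem Q4_p_dbca (f : V → V → V → V → ℝ) : Q4 (fun a b c d => f d b c a) = Q4 f := by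
  exact ((Q4_sw1 (fun a b c d => f d b c a)).symm).trans
    (((Q4_sw2 (fun a b c d => f d a c b)).symm).trans
    (((Q4_sw3 (fun a b c d => f d a b c)).symm).trans
    (((Q4_sw2 (fun a b c d => f c a b d)).symm).trans
    ((Q4_sw1 (fun a b c d => f b a c d)).symm))))

theorem Q4_p_dcab (f : V → V → V → V → ℝ) : Q4 (fun a b c d => f d c a b) = Q4 f := by
  exact ((Q4_sw2 (fun a b c d => f d c a b)).symm).trans
    (((Q4_sw1 (fun a b c d => f d b a c)).symm).trans
    (((Q4_sw3 (fun a b c d => f d a b c)).symm).trans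
    (((Q4_sw2 (fun a b c d => f c a b d)).symm).trans
    ((Q4_sw1 (fun a b c d => f b a c d)).symm))))

theorem Q4_p_dcba (f : V → V → V → V → ℝ) : Q4 (fun a b c d => f d c b a) = Q4 f := by
  exact ((Q4_sw1 (fun a b c d => f d c b a)).symm).trans
    (((Q4_sw2 (fun a b c d => f d c a b)).symm).trans
    (((Q4_sw1 (fun a b c d => f d b a c)).symm).trans
    (((Q4_sw3 (fun a b c d => f d a b c)).symm).trans
    (((Q4_sw2 (fun a b c d => f c a b d)).symm).trans
    ((Q4_sw1 (fun a b c d => f b a c d)).symm)))))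

theorem Sym3.s3 (h : Sym3 W) (x y z : V) : W z y x = W x y z := by
  rw [h.s1 y z x, h.s2 y x z, h.s1 x y z]

theorem Sym3.s4 (h : Sym3 W) (x y z : V) : W y z x = W x y z := by
  rw [h.s2 y x z, h.s1 x y z]

theorem Sym3.s5 (h : Sym3 W) (x y z : V) : W z x y = W x y z := by
  rw [h.s1 x z y, h.s2 x y z]

theorem pt2 (h : Sym3 W) (a b c d : V) :
    (W a b c + W a b d + W a c d + W b c d) * ((W a b c + W a b d + W a c d + W b c d) - 1) =
      2 * (W c d b * W c d a + W b d c * W b d a + W b c d * W b c a + W a d c * W a d b + W a c d * W a c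
      b + W a b d * W a b c) := by
  simp only [h.s1 a b c, h.s2 a b c, h.s3 a b c, h.s4 a b c, h.s5 a b c, h.s1 a b d, h.s2 a b d, h.s3 a b d,
      h.s4 a b d, h.s5 a b d, h.s1 a c d, h.s2 a c d, h.s3 a c d, h.s4 a c d, h.s5 a c d, h.s1 b c d,
      h.s2 b c d, h.s3 b c d, h.s4 b c d, h.s5 b c d]
  rcases h.bit a b c with h1 | h1 <;> rcases h.bit a b d with h2 | h2 <;>
    rcases h.bit a c d with h3 | h3 <;> rcases h.bit b c d with h4 | h4 <;>
    rw [h1, h2, h3, h4] <;> norm_num

theorem pt3 (h : Sym3 W) (a b c d : V) :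
    (W a b c + W a b d + W a c d + W b c d) * ((W a b c + W a b d + W a c d + W b c d) - 1) *
      (4 - (W a b c + W a b d + W a c d + W b c d)) =
      2 * (W b d c * W a d c * (1 - W b a d) + W b c d * W a c d * (1 - W b a c) + W c d b * W a d b * (1
      - W c a d) + W c b d * W a b d * (1 - W c a b) + W d c b * W a c b * (1 - W d a c) + W d b c *
      W a b c * (1 - W d a b) + W c d a * W b d a * (1 - W c b d) + W c a d * W b a d * (1 - W c b a)
      + W d c a * W b c a * (1 - W d b c) + W d a c * W b a c * (1 - W d b a) + W d b a * W c b a *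
      (1 - W d c b) + W d a b * W c a b * (1 - W d c a)) := by
  simp only [h.s1 a b c, h.s2 a b c, h.s3 a b c, h.s4 a b c, h.s5 a b c, h.s1 a b d, h.s2 a b d, h.s3 a b d,
      h.s4 a b d, h.s5 a b d, h.s1 a c d, h.s2 a c d, h.s3 a c d, h.s4 a c d, h.s5 a c d, h.s1 b c d,
      h.s2 b c d, h.s3 b c d, h.s4 b c d, h.s5 b c d]
  rcases h.bit a b c with h1 | h1 <;> rcases h.bit a b d with h2 | h2 <;>
    rcases h.bit a c d with h3 | h3 <;> rcases h.bit b c d with h4 | h4 <;>
    rw [h1, h2, h3, h4] <;> norm_num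

theorem baseP (hn : 0 < Fintype.card V) : Q4 (fun a b c (_ : V) => W a b c) = B0 W := by
  unfold Q4 B0 bb dd
  simp only [av_const hn]

theorem baseR : Q4 (fun a b c d => W a b c * W a b d) = S0 W := by
  unfold Q4 S0 dd
  congr 1
  funext a
  congr 1
  funext b
  simp only [av_mul]
  rw [av_mul_right]
  ring

theorem baseT : Q4 (fun a b c d => W a c d * W b c d * (1 - W a b c)) = tau W := rfl

theorem quad1 (hn : 0 < Fintype.card V) (h : Sym3 W) :
    (av fun a => av fun b => av fun c => av fun d => (W a b c + W a b d + W a c d + W b c d)) =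
      4 * B0 W := by
  have e : (av fun a => av fun b => av fun c => av fun d => (W a b c + W a b d + W a c d + W b c d)) =
      Q4 (fun a b c d => W a b c + W a b d + W a c d + W b c d) := rfl
  have h1 : Q4 (fun a b c d => W a b c) = B0 W :=
    (Q4_p_abcd (fun a b c (_ : V) => W a b c)).trans (baseP hn)
  have h2 : Q4 (fun a b c d => W a b d) = B0 W :=
    (Q4_p_abdc (fun a b c (_ : V) => W a b c)).trans (baseP hn)
  have h3 : Q4 (fun a b c d => W a c d) = B0 W :=
    (Q4_p_acdb (fun a b c (_ : V) => W a b c)).trans (baseP hn)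
  have h4 : Q4 (fun a b c d => W b c d) = B0 W :=
    (Q4_p_bcda (fun a b c (_ : V) => W a b c)).trans (baseP hn)
  rw [e, Q4_add, Q4_add, Q4_add, h1, h2, h3, h4]
  ring

theorem quad2 (_hn : 0 < Fintype.card V) (h : Sym3 W) :
    (av fun a => av fun b => av fun c => av fun d => (W a b c + W a b d + W a c d + W b c d) *
      ((W a b c + W a b d + W a c d + W b c d) - 1)) =
      12 * S0 W := by
  have e : (av fun a => av fun b => av fun c => av fun d => (W a b c + W a b d + W a c d + W b c d) *
      ((W a b c + W a b d + W a c d + W b c d) - 1)) =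
      Q4 (fun a b c d => 2 * (W c d b * W c d a + W b d c * W b d a + W b c d * W b c a + W a d c * W a d b + W a c d * W a c
      b + W a b d * W a b c)) := by
    unfold Q4
    congr 1
    funext a
    congr 1
    funext b
    congr 1
    funext c
    congr 1
    funext d
    exact pt2 h a b c d
  have h1 : Q4 (fun a b c d => W c d b * W c d a) = S0 W :=
    (Q4_p_cdba (fun a b c d => W a b c * W a b d)).trans baseR
  have h2 : Q4 (fun a b c d => W b d c * W b d a) = S0 W :=
    (Q4_p_bdca (fun a b c d => W a b c * W a b d)).trans baseR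
  have h3 : Q4 (fun a b c d => W b c d * W b c a) = S0 W :=
    (Q4_p_bcda (fun a b c d => W a b c * W a b d)).trans baseR
  have h4 : Q4 (fun a b c d => W a d c * W a d b) = S0 W :=
    (Q4_p_adcb (fun a b c d => W a b c * W a b d)).trans baseR
  have h5 : Q4 (fun a b c d => W a c d * W a c b) = S0 W :=
    (Q4_p_acdb (fun a b c d => W a b c * W a b d)).trans baseR
  have h6 : Q4 (fun a b c d => W a b d * W a b c) = S0 W :=
    (Q4_p_abdc (fun a b c d => W a b c * W a b d)).trans baseR
  rw [e, Q4_mul, Q4_add, Q4_add, Q4_add, Q4_add, Q4_add, h1, h2, h3, h4, h5, h6]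
  ring

theorem quad3 (_hn : 0 < Fintype.card V) (h : Sym3 W) :
    (av fun a => av fun b => av fun c => av fun d => (W a b c + W a b d + W a c d + W b c d) *
      ((W a b c + W a b d + W a c d + W b c d) - 1) *
      (4 - (W a b c + W a b d + W a c d + W b c d))) =
      24 * tau W := by
  have e : (av fun a => av fun b => av fun c => av fun d => (W a b c + W a b d + W a c d + W b c d) *
      ((W a b c + W a b d + W a c d + W b c d) - 1) *
      (4 - (W a b c + W a b d + W a c d + W b c d))) =
      Q4 (fun a b c d => 2 * (W b d c * W a d c * (1 - W b a d) + W b c d * W a c d * (1 - W b a c) + W c d b * W a d b * (1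
      - W c a d) + W c b d * W a b d * (1 - W c a b) + W d c b * W a c b * (1 - W d a c) + W d b c *
      W a b c * (1 - W d a b) + W c d a * W b d a * (1 - W c b d) + W c a d * W b a d * (1 - W c b a)
      + W d c a * W b c a * (1 - W d b c) + W d a c * W b a c * (1 - W d b a) + W d b a * W c b a *
      (1 - W d c b) + W d a b * W c a b * (1 - W d c a))) := by
    unfold Q4
    congr 1
    funext a
    congr 1
    funext b
    congr 1
    funext c
    congr 1
    funext d
    exact pt3 h a b c d
  have h1 : Q4 (fun a b c d => W b d c * W a d c * (1 - W b a d)) = tau W :=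
    (Q4_p_badc (fun a b c d => W a c d * W b c d * (1 - W a b c))).trans baseT
  have h2 : Q4 (fun a b c d => W b c d * W a c d * (1 - W b a c)) = tau W :=
    (Q4_p_bacd (fun a b c d => W a c d * W b c d * (1 - W a b c))).trans baseT
  have h3 : Q4 (fun a b c d => W c d b * W a d b * (1 - W c a d)) = tau W :=
    (Q4_p_cadb (fun a b c d => W a c d * W b c d * (1 - W a b c))).trans baseT
  have h4 : Q4 (fun a b c d => W c b d * W a b d * (1 - W c a b)) = tau W :=
    (Q4_p_cabd (fun a b c d => W a c d * W b c d * (1 - W a b c))).trans baseT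
  have h5 : Q4 (fun a b c d => W d c b * W a c b * (1 - W d a c)) = tau W :=
    (Q4_p_dacb (fun a b c d => W a c d * W b c d * (1 - W a b c))).trans baseT
  have h6 : Q4 (fun a b c d => W d b c * W a b c * (1 - W d a b)) = tau W :=
    (Q4_p_dabc (fun a b c d => W a c d * W b c d * (1 - W a b c))).trans baseT
  have h7 : Q4 (fun a b c d => W c d a * W b d a * (1 - W c b d)) = tau W :=
    (Q4_p_cbda (fun a b c d => W a c d * W b c d * (1 - W a b c))).trans baseT
  have h8 : Q4 (fun a b c d => W c a d * W b a d * (1 - W c b a)) = tau W :=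
    (Q4_p_cbad (fun a b c d => W a c d * W b c d * (1 - W a b c))).trans baseT
  have h9 : Q4 (fun a b c d => W d c a * W b c a * (1 - W d b c)) = tau W :=
    (Q4_p_dbca (fun a b c d => W a c d * W b c d * (1 - W a b c))).trans baseT
  have h10 : Q4 (fun a b c d => W d a c * W b a c * (1 - W d b a)) = tau W :=
    (Q4_p_dbac (fun a b c d => W a c d * W b c d * (1 - W a b c))).trans baseT
  have h11 : Q4 (fun a b c d => W d b a * W c b a * (1 - W d c b)) = tau W :=
    (Q4_p_dcba (fun a b c d => W a c d * W b c d * (1 - W a b c))).trans baseT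
  have h12 : Q4 (fun a b c d => W d a b * W c a b * (1 - W d c a)) = tau W :=
    (Q4_p_dcab (fun a b c d => W a c d * W b c d * (1 - W a b c))).trans baseT
  rw [e, Q4_mul, Q4_add, Q4_add, Q4_add, Q4_add, Q4_add, Q4_add, Q4_add, Q4_add, Q4_add, Q4_add, Q4_add, h1, h2, h3, h4, h5, h6, h7, h8, h9, h10, h11, h12]
  ring

end Pool.Agent.W909.RU
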