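import Pool.Agent.W909.RU.Av

set_option autoImplicit false
open Finset

namespace Pool.Agent.W909.RU
variable {V : Type} [Fintype V] {W : V → V → V → ℝ}

theorem up1_nn (h : Sym3 W) (x y z : V) : 0 ≤ W x y z := by
  rcases h.bit x y z with e | e <;> rw [e]
  norm_num

theorem up1_le (h : Sym3 W) (x y z : V) : W x y z ≤ 1 := by
  rcases h.bit x y z with e | e <;> rw [e]
  norm_num

theorem av_ff (h : Sym3 W) : (av fun x => av fun y => ff W x y) = S0 W := by
  have e1 : (av fun x => av fun y => ff W x y) =
      av fun z => av fun w => av fun x => av fun y => W x z w * W y z w := by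
    have a1 : ∀ x : V, (av fun y => ff W x y) = av fun z => av fun w => av fun y => W x z w * W y z w := by
      intro x
      unfold ff
      rw [av_comm]
      congr 1
      funext z
      rw [av_comm]
    simp_rw [a1]
    rw [av_comm]
    congr 1
    funext z
    rw [av_comm]
  rw [e1]
  unfold S0
  congr 1
  funext z
  congr 1
  funext w
  have a2 : ∀ x : V, (av fun y => W x z w * W y z w) = W x z w * dd W z w := by
    intro x
    rw [av_mul]
    congr 1
    unfold dd
    congr 1
    funext y
    rw [h.s1 z y w, h.s2 z w y]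
  simp_rw [a2]
  rw [av_mul_right]
  have a3 : (av fun x => W x z w) = dd W z w := by
    unfold dd
    congr 1
    funext y
    rw [h.s1 z y w, h.s2 z w y]
  rw [a3]
  ring

theorem ff_le (h : Sym3 W) (x y : V) : ff W x y ≤ dd W x y ^ 2 + 2 * mm W x y := by
  have h1 : dd W x y ^ 2 = av fun z => av fun w => W x y z * W x y w := by
    have : ∀ z : V, (av fun w => W x y z * W x y w) = W x y z * dd W x y := by
      intro z; rw [av_mul]; rfl
    simp_rw [this]
    rw [av_mul_right]
    show _ = dd W x y * dd W x y
    ring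
  have h2 : mm W x y = av fun z => av fun w => W x z w * W y z w * (1 - W x y w) := by
    unfold mm
    rw [av_comm]
    congr 1
    funext z
    congr 1
    funext w
    rw [h.s2 x z w, h.s2 y z w]
  have h3 : dd W x y ^ 2 + 2 * mm W x y =
      av fun z => av fun w => (W x y z * W x y w + W x z w * W y z w * (1 - W x y z)) +
        W x z w * W y z w * (1 - W x y w) := by
    have : 2 * mm W x y = mm W x y + mm W x y := by ring
    rw [this]
    nth_rewrite 2 [h2]
    rw [h1]
    unfold mm
    simp_rw [av_add]
    ring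
  rw [h3]
  unfold ff
  apply av_mono
  intro z
  apply av_mono
  intro w
  rcases h.bit x y z with e1 | e1 <;> rcases h.bit x y w with e2 | e2 <;>
    rcases h.bit x z w with e3 | e3 <;> rcases h.bit y z w with e4 | e4 <;>
    rw [e1, e2, e3, e4] <;> norm_num

theorem ff_le_bb (hn : 0 < Fintype.card V) (h : Sym3 W) (x y : V) : ff W x y ≤ bb W x := by
  unfold ff bb dd
  apply av_mono
  intro z
  apply av_mono
  intro w
  have := up1_nn h x z w
  have := up1_le h y z w
  nlinarith

theorem mm_nonneg (h : Sym3 W) (x y : V) : 0 ≤ mm W x y := by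
  unfold mm
  apply av_nonneg
  intro z
  apply av_nonneg
  intro w
  exact mul_nonneg (mul_nonneg (up1_nn h _ _ _) (up1_nn h _ _ _)) (by linarith [up1_le h x y z])

theorem tau_nonneg (h : Sym3 W) : 0 ≤ tau W := by
  unfold tau
  exact av_nonneg fun x => av_nonneg fun y => mm_nonneg h x y

theorem B0_nonneg (h : Sym3 W) : 0 ≤ B0 W := by
  unfold B0 bb dd
  exact av_nonneg fun x => av_nonneg fun y => av_nonneg fun z => up1_nn h x y z

theorem sigma_bb (hn : 0 < Fintype.card V) (h : Sym3 W) :
    (av fun x => (bb W x - B0 W) ^ 2) ≤ S0 W - B0 W ^ 2 := by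
  have e1 : (av fun x => av fun y => (dd W x y - B0 W) ^ 2) = S0 W - B0 W ^ 2 := by
    have a1 : ∀ x : V, (av fun y => (dd W x y - B0 W) ^ 2) =
        (av fun y => dd W x y ^ 2) - (2 * B0 W) * bb W x + B0 W ^ 2 := by
      intro x
      have : (fun y => (dd W x y - B0 W) ^ 2) =
          fun y => (dd W x y ^ 2 - (2 * B0 W) * dd W x y) + B0 W ^ 2 := by
        funext y; ring
      rw [this, av_add, av_sub, av_mul, av_const hn]
      rfl
    simp_rw [a1]
    rw [av_add, av_sub, av_mul, av_const hn]
    show S0 W - 2 * B0 W * B0 W + B0 W ^ 2 = _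
    ring
  rw [← e1]
  apply av_mono
  intro x
  have : bb W x - B0 W = av fun y => (dd W x y - B0 W) := by
    rw [av_sub, av_const hn]
    rfl
  rw [this]
  exact av_sq hn _

end Pool.Agent.W909.RU
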